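import Pool.Agent.H342R2.Per.Model

/-!
With high probability there is a cluster of large diameter.
-/

namespace H342P

open H974 Finset

theorem LRc_fst {a b c d : ℤ} {F : Finset Edg} (h : LRc a b c d F) :
    ∃ y y', (c ≤ y ∧ y ≤ d) ∧ (c ≤ y' ∧ y' ≤ d) ∧ Reach (↑F) (a, y) (b, y') := by
  obtain ⟨y, y', h1, h2, h3⟩ := h
  exact ⟨y, y', h1, h2, h3.mono Set.inter_subset_left⟩

/-- Disjoint squares are crossed independently. -/
theorem no_cross (L : ℕ) (hL : 0 < L) (S : Finset Edg) (K : ℕ)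
    (hS : ∀ i < K, LRE 0 (L:ℤ) ((i:ℤ) * (L + 1)) ((i:ℤ) * (L + 1) + L) ⊆ S) :
    Pr (fun _ => (1/2:ℝ)) S (fun F => ∀ i < K,
      ¬ LRc 0 (L:ℤ) ((i:ℤ) * (L + 1)) ((i:ℤ) * (L + 1) + L) F) ≤ (1/2) ^ K := by
  have hok : Ok (fun _ : Edg => (1/2:ℝ)) := fun _ => ⟨by norm_num, by norm_num⟩
  induction K with
  | zero => simpa using Pr_le_one hok _ _
  | succ K ih =>
    have ih' := ih (fun i hi => hS i (by omega))
    set T := S.filter (fun e => e.2.1 < (K:ℤ) * (L + 1)) with hT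
    set T' := S.filter (fun e => ¬ e.2.1 < (K:ℤ) * (L + 1)) with hT'
    have h1 : Pr (fun _ => (1/2:ℝ)) S (fun F => ∀ i < K + 1,
        ¬ LRc 0 (L:ℤ) ((i:ℤ) * (L + 1)) ((i:ℤ) * (L + 1) + L) F) =
        Pr (fun _ => (1/2:ℝ)) S (fun F => (∀ i < K,
          ¬ LRc 0 (L:ℤ) ((i:ℤ) * (L + 1)) ((i:ℤ) * (L + 1) + L) F) ∧
          ¬ LRc 0 (L:ℤ) ((K:ℤ) * (L + 1)) ((K:ℤ) * (L + 1) + L) F) := by
      apply Pr_congr
      intro F _
      constructor
      · intro h
        exact ⟨fun i hi => h i (by omega), h K (by omega)⟩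
      · rintro ⟨h2, h3⟩ i hi
        rcases Nat.lt_succ_iff_lt_or_eq.mp hi with h4 | h4
        · exact h2 i h4
        · rw [h4]; exact h3
    rw [h1, Pr_indep (S := T) (T := T') (Finset.filter_subset _ _) (Finset.filter_subset _ _)
      (Finset.disjoint_filter_filter_not _ _ _)]
    · have h2 : Pr (fun _ => (1/2:ℝ)) S (fun F =>
          ¬ LRc 0 (L:ℤ) ((K:ℤ) * (L + 1)) ((K:ℤ) * (L + 1) + L) F) ≤ 1/2 := by
        rw [Pr_not, pr_LRc _ (hS K (by omega))]
        have h3 := hh_square (L:ℤ) (by exact_mod_cast hL)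
        have e1 : (L:ℤ) - 0 = L := by ring
        have e2 : (K:ℤ) * (L + 1) + L - (K:ℤ) * (L + 1) = L := by ring
        rw [e1, e2]
        linarith
      rw [pow_succ]
      exact mul_le_mul ih' h2 (Pr_nonneg hok _ _) (by positivity)
    · intro F _
      have key : ∀ i < K, (LRc 0 (L:ℤ) ((i:ℤ) * (L + 1)) ((i:ℤ) * (L + 1) + L) F ↔
          LRc 0 (L:ℤ) ((i:ℤ) * (L + 1)) ((i:ℤ) * (L + 1) + L) (F ∩ T)) := by
        intro i hi
        apply LRc_local
        intro e he
        rw [hT, Finset.mem_filter]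
        refine ⟨hS i (by omega) he, ?_⟩
        have h5 : ((i:ℤ) + 1) * (L + 1) ≤ (K:ℤ) * (L + 1) := by
          apply mul_le_mul_of_nonneg_right _ (by positivity)
          exact_mod_cast hi
        have h6 : e.2.1 ≤ (i:ℤ) * (L + 1) + L := by
          obtain ⟨x, y, t⟩ := e
          cases t
          · rw [mem_LRE_false] at he; simp only; omega
          · rw [mem_LRE_true] at he; simp only; omega
        have h7 : ((i:ℤ) + 1) * (L + 1) = (i:ℤ) * (L + 1) + L + 1 := by ring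
        omega
      constructor
      · intro h i hi h2
        exact h i hi ((key i hi).mpr h2)
      · intro h i hi h2
        exact h i hi ((key i hi).mp h2)
    · intro F _
      apply not_congr
      apply LRc_local
      intro e he
      rw [hT', Finset.mem_filter]
      refine ⟨hS K (by omega) he, ?_⟩
      obtain ⟨x, y, t⟩ := e
      cases t
      · rw [mem_LRE_false] at he; simp only; omega
      · rw [mem_LRE_true] at he; simp only; omega

/-- The probability that there is no large cluster. -/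
theorem pr_not_big {n L K : ℕ} (hL : 0 < L) {m : ℤ} (hm0 : 0 ≤ m) (hm : 3 * m ≤ L)
    (hK : K * (L + 1) ≤ n + 1) (hLn : L ≤ n) :
    Pr (fun _ => (1/2:ℝ)) (RE 0 n 0 n) (fun F => ¬ Big n m (↑F)) ≤ (1/2) ^ K := by
  have hok : Ok (fun _ : Edg => (1/2:ℝ)) := fun _ => ⟨by norm_num, by norm_num⟩
  have hi : ∀ i < K, ((i:ℤ) * (L + 1) + L) ≤ n := by
    intro i hi
    have h5 : ((i:ℤ) + 1) * (L + 1) ≤ (K:ℤ) * (L + 1) := by
      apply mul_le_mul_of_nonneg_right _ (by positivity)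
      exact_mod_cast hi
    have h6 : (K:ℤ) * (L + 1) ≤ n + 1 := by exact_mod_cast hK
    have h7 : ((i:ℤ) + 1) * (L + 1) = (i:ℤ) * (L + 1) + L + 1 := by ring
    omega
  have hi0 : ∀ i : ℕ, 0 ≤ (i:ℤ) * (L + 1) := fun i => by positivity
  refine le_trans (Pr_mono hok ?_) (no_cross L hL (RE 0 n 0 n) K ?_)
  · intro F _ hF i hiK h
    apply hF
    obtain ⟨y, y', h1, h2, h3⟩ := LRc_fst h
    have := hi i hiK
    have := hi0 i
    refine ⟨(0, y), ((L:ℤ), y'), ?_, ?_, h3, ?_⟩
    · unfold inR; simp only; omega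
    · unfold inR; simp only; omega
    · unfold dsq
      simp only
      have h8 : (3 * m) ^ 2 ≤ (L:ℤ) ^ 2 := pow_le_pow_left₀ (by omega) hm 2
      nlinarith [sq_nonneg (y - y'), sq_nonneg m]
  · intro i hiK e he
    have := hi i hiK
    have := hi0 i
    obtain ⟨x, y, t⟩ := e
    cases t
    · rw [mem_LRE_false] at he; rw [mem_RE_false]; omega
    · rw [mem_LRE_true] at he; rw [mem_RE_true]; omega

end H342P
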