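import Pool.Agent.H342R2.Per.Plain
import Pool.Agent.H984R3.Per.FinalLow

/-!
Both halves of the perimeter exponent, from the two inputs.
-/

namespace H342P

open H974 Finset Filter Topology

theorem upper_tendsto {C : ℝ → ℝ} (hC : ∀ η, 0 < η → 0 < C η)
    (hU : ∀ η, 0 < η → TwoUp (C η) (1/4 - η)) {ε : ℝ} (hε : 0 < ε) :
    Tendsto (fun n : ℕ => Pr (fun _ => (1/2:ℝ)) (RE 0 n 0 n)
      (fun F => Long n ((n:ℝ) ^ (7/4 + ε) / 2) (↑F))) atTop (𝓝 0) := by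
  have hok : Ok (fun _ : Edg => (1/2:ℝ)) := fun _ => ⟨by norm_num, by norm_num⟩
  rw [Metric.tendsto_atTop]
  intro δ hδ
  set η : ℝ := min (ε / 2) (1/8) with hη
  have hη0 : 0 < η := by positivity
  have hη1 : η ≤ 1/8 := min_le_right _ _
  have hη2 : η ≤ ε / 2 := min_le_left _ _
  obtain ⟨Λ, hΛ, h⟩ := upper (C := C η) (s := 1/4 - η) (hC η hη0).le (by linarith) (by linarith)
    (hU η hη0) (show 0 < δ / 2 by linarith)
  have h1 : Tendsto (fun n : ℕ => (n:ℝ) ^ (ε / 2)) atTop atTop :=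
    (tendsto_rpow_atTop (by linarith)).comp tendsto_natCast_atTop_atTop
  obtain ⟨N, hN⟩ := (tendsto_atTop.mp h1 (2 * Λ)).exists_forall_of_atTop
  refine ⟨max N 1, fun n hn => ?_⟩
  have hn1 : 1 ≤ n := (le_max_right _ _).trans hn
  have hnN : N ≤ n := (le_max_left _ _).trans hn
  have hn0 : (0:ℝ) < n := by exact_mod_cast hn1
  have hn1' : (1:ℝ) ≤ n := by exact_mod_cast hn1
  rw [Real.dist_eq, sub_zero, abs_of_nonneg (Pr_nonneg hok _ _)]
  refine lt_of_le_of_lt (le_trans (Pr_mono hok ?_) (h n hn1)) (by linarith)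
  rintro F _ ⟨v, hv, h2⟩
  refine ⟨v, hv, lt_of_le_of_lt ?_ h2⟩
  have h3 : 2 * Λ ≤ (n:ℝ) ^ (ε / 2) := hN n hnN
  have h4 : (n:ℝ) ^ (2 - (1/4 - η)) ≤ (n:ℝ) ^ (7/4 + ε / 2) :=
    Real.rpow_le_rpow_of_exponent_le hn1' (by linarith)
  have h5 : (n:ℝ) ^ (7/4 + ε) = (n:ℝ) ^ (ε / 2) * (n:ℝ) ^ (7/4 + ε / 2) := by
    rw [← Real.rpow_add hn0]; congr 1; ring
  rw [h5]
  have h6 : 0 < (n:ℝ) ^ (7/4 + ε / 2) := by positivity
  have h7 : 0 < (n:ℝ) ^ (2 - (1/4 - η)) := by positivity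
  nlinarith

theorem final_of {c C : ℝ → ℝ} (hc : ∀ η, 0 < η → 0 < c η) (hC : ∀ η, 0 < η → 0 < C η)
    (hL : ∀ η, 0 < η → H984P.LowA (c η) (1/4 + η)) (hU : ∀ η, 0 < η → TwoUp (C η) (1/4 - η))
    {ε : ℝ} (hε : 0 < ε) :
    Tendsto (fun n : ℕ => Plain.prob n (fun F => ∀ v, Plain.Largest n F v →
      (n:ℝ) ^ (7/4 - ε) < (Plain.perimeterEdges F v : ℝ) ∧
        (Plain.perimeter F v : ℝ) < (n:ℝ) ^ (7/4 + ε))) atTop (𝓝 1) := by
  have hok : Ok (fun _ : Edg => (1/2:ℝ)) := fun _ => ⟨by norm_num, by norm_num⟩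
  have h1 := upper_tendsto hC hU hε
  have h2 := H984P.lower hc hC hL hU (show 0 < ε / 2 by linarith)
  have h3 := h1.add h2
  rw [add_zero] at h3
  have h4 : Tendsto (fun n : ℕ => (n:ℝ) ^ (ε / 2)) atTop atTop :=
    (tendsto_rpow_atTop (by linarith)).comp tendsto_natCast_atTop_atTop
  obtain ⟨N, hN⟩ := (tendsto_atTop.mp h4 4).exists_forall_of_atTop
  have key : ∀ᶠ n : ℕ in atTop, 1 - (Pr (fun _ => (1/2:ℝ)) (RE 0 n 0 n)
      (fun F => Long n ((n:ℝ) ^ (7/4 + ε) / 2) (↑F)) + Pr (fun _ => (1/2:ℝ)) (RE 0 n 0 n)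
      (fun F => ∃ v, IsMax n (↑F) v ∧ (per n (↑F) v : ℝ) < (n:ℝ) ^ (7/4 - ε / 2))) ≤
      Plain.prob n (fun F => ∀ v, Plain.Largest n F v →
      (n:ℝ) ^ (7/4 - ε) < (Plain.perimeterEdges F v : ℝ) ∧
        (Plain.perimeter F v : ℝ) < (n:ℝ) ^ (7/4 + ε)) := by
    filter_upwards [eventually_ge_atTop (max N 1)] with n hn
    have hn1 : 1 ≤ n := (le_max_right _ _).trans hn
    have hnN : N ≤ n := (le_max_left _ _).trans hn
    have hn0 : (0:ℝ) < n := by exact_mod_cast hn1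
    have h5 := Plain.prob_not n (fun F => ∀ v, Plain.Largest n F v →
      (n:ℝ) ^ (7/4 - ε) < (Plain.perimeterEdges F v : ℝ) ∧
        (Plain.perimeter F v : ℝ) < (n:ℝ) ^ (7/4 + ε))
    have h6 : Plain.prob n (fun F => ¬ ∀ v, Plain.Largest n F v →
      (n:ℝ) ^ (7/4 - ε) < (Plain.perimeterEdges F v : ℝ) ∧
        (Plain.perimeter F v : ℝ) < (n:ℝ) ^ (7/4 + ε)) ≤
        Pr (fun _ => (1/2:ℝ)) (RE 0 n 0 n) (fun F => Long n ((n:ℝ) ^ (7/4 + ε) / 2) (↑F) ∨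
          ∃ v, IsMax n (↑F) v ∧ (per n (↑F) v : ℝ) < (n:ℝ) ^ (7/4 - ε / 2)) := by
      apply Plain.prob_le_of_pr
      intro F hF hnot
      push Not at hnot
      obtain ⟨v, hv, h7⟩ := hnot
      have hm := Plain.isMax_of_largest hv
      have hp := Plain.perimeter_eq hF v
      have hpe := Plain.perimeter_le F v
      have hpe' : (Plain.perimeter F v : ℝ) ≤ 2 * (Plain.perimeterEdges F v : ℝ) := by
        exact_mod_cast hpe
      by_cases h8 : (n:ℝ) ^ (7/4 - ε) < (Plain.perimeterEdges F v : ℝ)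
      · left
        refine ⟨v, hm, ?_⟩
        have h9 := h7 h8
        rw [← hp]
        have : (0:ℝ) < (n:ℝ) ^ (7/4 + ε) := by positivity
        linarith
      · right
        refine ⟨v, hm, ?_⟩
        rw [← hp]
        rw [not_lt] at h8
        have h10 : 4 ≤ (n:ℝ) ^ (ε / 2) := hN n hnN
        have h11 : (n:ℝ) ^ (7/4 - ε / 2) = (n:ℝ) ^ (ε / 2) * (n:ℝ) ^ (7/4 - ε) := by
          rw [← Real.rpow_add hn0]; congr 1; ring
        rw [h11]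
        have : (0:ℝ) < (n:ℝ) ^ (7/4 - ε) := by positivity
        nlinarith
    have h12 := h6.trans (Pr_or_le hok _ _ _)
    linarith
  have h13 : Tendsto (fun n : ℕ => 1 - (Pr (fun _ => (1/2:ℝ)) (RE 0 n 0 n)
      (fun F => Long n ((n:ℝ) ^ (7/4 + ε) / 2) (↑F)) + Pr (fun _ => (1/2:ℝ)) (RE 0 n 0 n)
      (fun F => ∃ v, IsMax n (↑F) v ∧ (per n (↑F) v : ℝ) < (n:ℝ) ^ (7/4 - ε / 2))))
      atTop (𝓝 1) := by
    simpa using tendsto_const_nhds.sub h3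
  refine tendsto_of_tendsto_of_tendsto_of_le_of_le' h13 tendsto_const_nhds key ?_
  filter_upwards with n
  rw [Plain.prob_eq]
  exact Pr_le_one hok _ _

end H342P
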