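import Pool.Agent.H342R2.Per.Model

/-!
Locality of the two-arm event.
-/

namespace H342P

open H974 Finset

theorem far_of_bdry {u : Vtx} {m : ℤ} {w : Vtx}
    (h : w.1 = u.1 - m ∨ w.1 = u.1 + m ∨ w.2 = u.2 - m ∨ w.2 = u.2 + m) : Far u m w := by
  unfold Far
  omega

theorem arm_local {u : Vtx} {m : ℤ} (hm : 0 < m) {G : Set Edg}
    (h : ∃ w, Far u m w ∧ Reach G u w) :
    ∃ w, Far u m w ∧ Reach (G ∩ ↑(RE (u.1 - m) (u.1 + m) (u.2 - m) (u.2 + m))) u w := by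
  obtain ⟨w, hw, h1⟩ := h
  obtain ⟨w', -, h3, h4⟩ := first_exit (a := u.1 - m) (b := u.1 + m) (c := u.2 - m)
    (d := u.2 + m) (by unfold inR; omega) h1 (by unfold Far at hw; omega)
  exact ⟨w', far_of_bdry h3, h4⟩

theorem mem_RE_of_inF {a b c d : ℤ} {e : Edg} (h : inF a b c d (dsrc e) ∨ inF a b c d (dtgt e)) :
    e ∈ RE a b c d := by
  obtain ⟨x, y, t⟩ := e
  cases t
  · simp only [dsrc_false, dtgt_mk, inF] at h
    rw [mem_RE_false]; omega
  · simp only [dsrc_true, dtgt_mk, inF] at h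
    rw [mem_RE_true]; omega

theorem darm_local {a b c d : ℤ} {G : Set Edg} {f g : Vtx}
    (h : DReach (G ∩ ↑(RE a b c d))ᶜ f g) :
    DReach Gᶜ f g ∨ ∃ g', ¬ inF a b c d g' ∧ DReach Gᶜ f g' := by
  induction h with
  | refl => exact Or.inl (DReach.refl _ _)
  | @tail g g' _ hs ih =>
    rcases ih with ih | ih
    · by_cases hg : inF a b c d g
      · left
        refine ih.trans (DAdj.reach ?_)
        obtain ⟨e, he, h⟩ := hs
        refine ⟨e, ?_, h⟩
        intro h2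
        apply he
        refine ⟨h2, ?_⟩
        rw [Finset.mem_coe]
        apply mem_RE_of_inF
        rcases h with ⟨h3, -⟩ | ⟨-, h3⟩
        · left; rw [h3]; exact hg
        · right; rw [h3]; exact hg
      · exact Or.inr ⟨g, hg, ih⟩
    · exact Or.inr ih

theorem two_local {u f : Vtx} {m : ℤ} (hm : 0 < m) (G : Set Edg) :
    Two u f m G ↔ Two u f m (G ∩ ↑(RE (u.1 - m) (u.1 + m) (u.2 - m) (u.2 + m))) := by
  constructor
  · rintro ⟨h1, g, h2, h3⟩
    exact ⟨arm_local hm h1, g, h2, h3.mono (Set.compl_subset_compl.mpr Set.inter_subset_left)⟩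
  · rintro ⟨⟨w, h0, h1⟩, g, h2, h3⟩
    refine ⟨⟨w, h0, h1.mono Set.inter_subset_left⟩, ?_⟩
    rcases darm_local h3 with h4 | ⟨g', h4, h5⟩
    · exact ⟨g, h2, h4⟩
    · exact ⟨g', h4, h5⟩

theorem two_inter {u f : Vtx} {m : ℤ} (hm : 0 < m) (F : Finset Edg) {T : Finset Edg}
    (hT : RE (u.1 - m) (u.1 + m) (u.2 - m) (u.2 + m) ⊆ T) :
    Two u f m (↑F) ↔ Two u f m (↑(F ∩ T)) := by
  rw [two_local hm, two_local hm (↑(F ∩ T))]
  rw [coe_inter_eq hT]

theorem pr_two {q : ℝ} {u f : Vtx} {m : ℤ} (hm : 0 < m) {S : Finset Edg}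
    (hS : RE (u.1 - m) (u.1 + m) (u.2 - m) (u.2 + m) ⊆ S) :
    Pr (fun _ => q) S (fun F => Two u f m (↑F)) =
      Pr (fun _ => q) (RE (u.1 - m) (u.1 + m) (u.2 - m) (u.2 + m))
        (fun F => Two u f m (↑F)) := by
  apply Pr_local hS
  intro F _
  exact two_inter hm F (Finset.Subset.refl _)

end H342P
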