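import Pool.Agent.H342R2.Per.Outer
import Pool.Agent.H974R2.Cross

/-!
The outer perimeter of a cluster of the box `{0, …, n}²` and its domination by two-arm events.
-/

namespace H342P

open H974 Finset

/-- `w` is at (sup norm) distance at least `m` from `u`. -/
def Far (u : Vtx) (m : ℤ) (w : Vtx) : Prop :=
  w.1 ≤ u.1 - m ∨ u.1 + m ≤ w.1 ∨ w.2 ≤ u.2 - m ∨ u.2 + m ≤ w.2

/-- The face `g` is not contained in the box of radius `m` around `u`. -/
def FarF (u : Vtx) (m : ℤ) (g : Vtx) : Prop :=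
  ¬ inF (u.1 - m) (u.1 + m) (u.2 - m) (u.2 + m) g

/-- Two arms: `u` is joined to distance `m` by an open path and the face `f` leaves the box of
radius `m` around `u` by a closed dual path. -/
def Two (u f : Vtx) (m : ℤ) (F : Set Edg) : Prop :=
  (∃ w, Far u m w ∧ Reach F u w) ∧ ∃ g, FarF u m g ∧ DReach Fᶜ f g

/-- The face `f` lies in the unbounded component of the complement of the cluster of `v`; all
edges are edges of the box `{0, …, n}²`, so that `(-1, -1)` is a face outside. -/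
def Outer (F : Set Edg) (v f : Vtx) : Prop := DReach (EC F v)ᶜ f (-1, -1)

/-- Square of the Euclidean distance. -/
def dsq (u v : Vtx) : ℤ := (u.1 - v.1) ^ 2 + (u.2 - v.2) ^ 2

/-- Distance to the boundary of the box `{0, …, n}²`. -/
def bdist (n : ℕ) (u : Vtx) : ℤ := min (min u.1 (n - u.1)) (min u.2 (n - u.2))

theorem inc_dsrc (e : Edg) : Inc (src e) (dsrc e) := by
  obtain ⟨x, y, t⟩ := e
  cases t
  · simp [Inc]
  · simp [Inc]

theorem inc_dtgt (e : Edg) : Inc (src e) (dtgt e) := by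
  obtain ⟨x, y, t⟩ := e
  cases t
  · simp [Inc]
  · simp [Inc]

theorem far_of_not_inF {u : Vtx} {m : ℤ} {w : Vtx}
    (h : ¬ inF (u.1 - m) (u.1 + m) (u.2 - m) (u.2 + m) w) : Far u m w := by
  unfold inF at h
  unfold Far
  omega

/-- An edge of the outer perimeter has two arms. -/
theorem two_of_outer {F : Set Edg} {v : Vtx} {e : Edg} (he : e ∈ EC F v) {f : Vtx}
    (hf : Inc (src e) f) (ho : Outer F v f) {m : ℤ} (h1 : m ≤ (src e).1)
    {w : Vtx} (hw : Reach F v w) (hw2 : FarF (src e) m w) : Two (src e) f m F := by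
  have h3 : Reach F (src e) w := he.2.symm.trans hw
  refine ⟨⟨w, far_of_not_inF hw2, h3⟩, ?_⟩
  by_contra hcon
  have hD : ∀ g, DReach Fᶜ f g → inF ((src e).1 - m) ((src e).1 + m) ((src e).2 - m)
      ((src e).2 + m) g := by
    intro g hg
    by_contra h
    exact hcon ⟨g, h, hg⟩
  refine hw2 (outer_arm hD (g := (-1, -1)) ?_ ho he.2 hf hw)
  unfold inF
  simp only
  omega

/-- Two points of a box are not far apart. -/
theorem dsq_lt {u a b : Vtx} {m : ℤ} (ha : ¬ FarF u m a) (hb : ¬ FarF u m b) :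
    dsq a b < 8 * m ^ 2 := by
  unfold FarF at ha hb
  rw [not_not] at ha hb
  obtain ⟨⟨a1, a2⟩, a3, a4⟩ := ha
  obtain ⟨⟨b1, b2⟩, b3, b4⟩ := hb
  have hm : 0 < m := by omega
  have h1 : |a.1 - b.1| ≤ 2 * m - 1 := by rw [abs_le]; omega
  have h2 : |a.2 - b.2| ≤ 2 * m - 1 := by rw [abs_le]; omega
  have h3 : (a.1 - b.1) ^ 2 ≤ (2 * m - 1) ^ 2 := by
    rw [← sq_abs (a.1 - b.1)]
    exact pow_le_pow_left₀ (abs_nonneg _) h1 2
  have h4 : (a.2 - b.2) ^ 2 ≤ (2 * m - 1) ^ 2 := by
    rw [← sq_abs (a.2 - b.2)]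
    exact pow_le_pow_left₀ (abs_nonneg _) h2 2
  unfold dsq
  nlinarith

/-- The cluster of `v` has the largest Euclidean diameter among all clusters of the box. -/
def IsMax (n : ℕ) (F : Set Edg) (v : Vtx) : Prop :=
  ∃ a b, Reach F v a ∧ Reach F v b ∧ ∀ c d : Vtx, inR 0 n 0 n c → inR 0 n 0 n d →
    Reach F c d → dsq c d ≤ dsq a b

/-- Some cluster of the box has (squared) diameter at least `8 m²`. -/
def Big (n : ℕ) (m : ℤ) (F : Set Edg) : Prop :=
  ∃ c d : Vtx, inR 0 n 0 n c ∧ inR 0 n 0 n d ∧ Reach F c d ∧ 8 * m ^ 2 ≤ dsq c d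

open Classical in
/-- Length of the outer perimeter of the cluster of `v`: every edge of the cluster is counted
once for each of its two sides which lies in the unbounded component of the complement. -/
noncomputable def per (n : ℕ) (F : Set Edg) (v : Vtx) : ℕ :=
  ∑ e ∈ RE 0 n 0 n, if e ∈ EC F v then
    ((if Outer F v (dsrc e) then 1 else 0) + (if Outer F v (dtgt e) then 1 else 0)) else 0

/-- Number of two-arm pairs. -/
noncomputable def NN (n : ℕ) (m : ℤ) (F : Set Edg) : ℝ :=
  ∑ e ∈ RE 0 n 0 n, (ind (Two (src e) (dsrc e) (min m (bdist n (src e))) F) +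
    ind (Two (src e) (dtgt e) (min m (bdist n (src e))) F))

theorem per_le {n : ℕ} {m : ℤ} {F : Set Edg} {v : Vtx} (hm : IsMax n F v)
    (hb : Big n m F) : (per n F v : ℝ) ≤ NN n m F := by
  classical
  obtain ⟨a, b, ha, hb', hmax⟩ := hm
  obtain ⟨c, d, hc, hd, hcd, h8⟩ := hb
  have h8' : 8 * m ^ 2 ≤ dsq a b := h8.trans (hmax c d hc hd hcd)
  have hfar : ∀ (u : Vtx) (k : ℤ), k ≤ m → ∃ w, Reach F v w ∧ FarF u k w := by
    intro u k hk
    by_contra hcon
    push Not at hcon
    have h1 := hcon a ha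
    have h2 := hcon b hb'
    have h3 := dsq_lt h1 h2
    have h4 : 0 < k := by
      unfold FarF at h1
      rw [not_not] at h1
      unfold inF at h1
      omega
    nlinarith
  unfold per NN
  push_cast
  apply Finset.sum_le_sum
  intro e he
  have hk : min m (bdist n (src e)) ≤ (src e).1 := by
    refine (min_le_right _ _).trans ?_
    unfold bdist
    exact (min_le_left _ _).trans (min_le_left _ _)
  obtain ⟨w, hw1, hw2⟩ := hfar (src e) (min m (bdist n (src e))) (min_le_left _ _)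
  split_ifs with h1 h2 h3 h3
  · rw [ind_of (two_of_outer h1 (inc_dsrc e) h2 hk hw1 hw2),
      ind_of (two_of_outer h1 (inc_dtgt e) h3 hk hw1 hw2)]
  · rw [ind_of (two_of_outer h1 (inc_dsrc e) h2 hk hw1 hw2)]
    linarith [ind_nonneg (Two (src e) (dtgt e) (min m (bdist n (src e))) F)]
  · rw [ind_of (two_of_outer h1 (inc_dtgt e) h3 hk hw1 hw2)]
    linarith [ind_nonneg (Two (src e) (dsrc e) (min m (bdist n (src e))) F)]
  · linarith [ind_nonneg (Two (src e) (dtgt e) (min m (bdist n (src e))) F),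
      ind_nonneg (Two (src e) (dsrc e) (min m (bdist n (src e))) F)]
  · linarith [ind_nonneg (Two (src e) (dtgt e) (min m (bdist n (src e))) F),
      ind_nonneg (Two (src e) (dsrc e) (min m (bdist n (src e))) F)]

end H342P
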