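import Pool.Agent.H974R2.Lattice

/-!
Outer boundary of a cluster: a face which touches the cluster `C` and belongs to the unbounded
component of the complement of `C` has a dual cluster (through closed edges) which is not smaller
than `C`.
-/

namespace H342P

open H974 Finset

/-- The edges of the cluster of `v`. -/
def EC (F : Set Edg) (v : Vtx) : Set Edg := {e | e ∈ F ∧ Reach F v (src e)}

/-- The face `p` touches the vertex `u`. -/
def Inc (u p : Vtx) : Prop := (p.1 = u.1 ∨ p.1 = u.1 - 1) ∧ (p.2 = u.2 ∨ p.2 = u.2 - 1)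

/-- The face `g` lies in the rectangle. -/
def inF (a b c d : ℤ) (g : Vtx) : Prop := (a ≤ g.1 ∧ g.1 < b) ∧ (c ≤ g.2 ∧ g.2 < d)

section
variable (F : Set Edg) (v f : Vtx)

/-- the boundary chain of the dual cluster of `f` -/
noncomputable def zz (e : Edg) : ZMod 2 :=
  b2 (DReach Fᶜ f (dsrc e)) + b2 (DReach Fᶜ f (dtgt e))

/-- its part in the cluster of `v` -/
noncomputable def zc (e : Edg) : ZMod 2 := b2 (Reach F v (src e)) * zz F f e

theorem zz_notMem {e : Edg} (he : e ∉ F) : zz F f e = 0 := by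
  unfold zz
  have : DReach Fᶜ f (dsrc e) ↔ DReach Fᶜ f (dtgt e) := by
    constructor
    · intro h
      exact h.trans (DAdj.reach ⟨e, he, Or.inl ⟨rfl, rfl⟩⟩)
    · intro h
      exact h.trans (DAdj.reach ⟨e, he, Or.inr ⟨rfl, rfl⟩⟩)
  rw [b2_congr this, zmod2_add_self]

theorem reach_src_tgt {e : Edg} (he : e ∈ F) : Reach F v (src e) ↔ Reach F v (tgt e) := by
  constructor
  · intro h
    exact h.trans (Adj.reach ⟨e, he, Or.inl ⟨rfl, rfl⟩⟩)
  · intro h
    exact h.trans (Adj.reach ⟨e, he, Or.inr ⟨rfl, rfl⟩⟩)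

theorem zc_inc {e : Edg} {u : Vtx} (hu : src e = u ∨ tgt e = u) :
    zc F v f e = b2 (Reach F v u) * zz F f e := by
  unfold zc
  by_cases he : e ∈ F
  · rcases hu with h | h
    · rw [h]
    · rw [b2_congr (reach_src_tgt F v he), h]
  · rw [zz_notMem F f he, mul_zero, mul_zero]

theorem zc_notMem {e : Edg} (he : e ∉ EC F v) : zc F v f e = 0 := by
  unfold zc
  by_cases h1 : e ∈ F
  · rw [b2_not_of (fun h => he ⟨h1, h⟩), zero_mul]
  · rw [zz_notMem F f h1, mul_zero]

theorem zc_vertex (x y : ℤ) : zc F v f (x, y, true) + zc F v f (x - 1, y, true) +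
    (zc F v f (x, y, false) + zc F v f (x, y - 1, false)) = 0 := by
  rw [zc_inc F v f (e := (x, y, true)) (u := (x, y)) (Or.inl rfl),
    zc_inc F v f (e := (x - 1, y, true)) (u := (x, y)) (Or.inr (by simp)),
    zc_inc F v f (e := (x, y, false)) (u := (x, y)) (Or.inl rfl),
    zc_inc F v f (e := (x, y - 1, false)) (u := (x, y)) (Or.inr (by simp))]
  rw [← mul_add, ← mul_add, ← mul_add]
  unfold zz
  simp only [dsrc_true, dsrc_false, dtgt_mk]
  set A := b2 (DReach Fᶜ f (x, y))
  set B := b2 (DReach Fᶜ f (x - 1, y))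
  set C := b2 (DReach Fᶜ f (x - 1, y - 1))
  set D := b2 (DReach Fᶜ f (x, y - 1))
  have h4 : ∀ r A B C D : ZMod 2, r * (D + A + (C + B) + (B + A + (C + D))) = 0 := by decide
  exact h4 _ _ _ _ _

/-- the potential of `zc` -/
noncomputable def SS (a x y : ℤ) : ZMod 2 := ∑ i ∈ Finset.Ico a (x + 1), zc F v f (i, y, false)

variable {F v f}
variable {a b c d : ℤ} (hD : ∀ g, DReach Fᶜ f g → inF a b c d g)

include hD

theorem zz_out {e : Edg} (h1 : ¬ inF a b c d (dsrc e)) (h2 : ¬ inF a b c d (dtgt e)) :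
    zz F f e = 0 := by
  unfold zz
  rw [b2_not_of (fun h => h1 (hD _ h)), b2_not_of (fun h => h2 (hD _ h)), add_zero]

theorem zc_out {e : Edg} (h1 : ¬ inF a b c d (dsrc e)) (h2 : ¬ inF a b c d (dtgt e)) :
    zc F v f e = 0 := by
  unfold zc
  rw [zz_out hD h1 h2, mul_zero]

theorem SS_V (x y : ℤ) : SS F v f a x y = SS F v f a (x - 1) y + zc F v f (x, y, false) := by
  unfold SS
  by_cases hx : a ≤ x
  · have h := sum_Ico_int_succ hx (fun i => zc F v f (i, y, false))
    rw [h]
    simp
  · rw [Finset.Ico_eq_empty (by omega), Finset.Ico_eq_empty (by omega)]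
    rw [zc_out hD]
    · simp
    · simp only [dsrc_false, inF]; omega
    · simp only [dtgt_mk, inF]; omega

theorem SS_H (x y : ℤ) : SS F v f a x y = SS F v f a x (y - 1) + zc F v f (x, y, true) := by
  by_cases hx : a ≤ x
  · have key : ∀ k : ℕ, SS F v f a (a - 1 + k) y + SS F v f a (a - 1 + k) (y - 1)
        = zc F v f (a - 1 + k, y, true) := by
      intro k
      induction k with
      | zero =>
        unfold SS
        rw [Finset.Ico_eq_empty (by push_cast; omega), zc_out hD]
        · simp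
        · simp only [dsrc_true, inF]; push_cast; omega
        · simp only [dtgt_mk, inF]; push_cast; omega
      | succ k ih =>
        have e1 : a - 1 + ((k + 1 : ℕ) : ℤ) = a + k := by push_cast; ring
        have e2 : a + (k:ℤ) - 1 = a - 1 + k := by ring
        rw [e1, SS_V hD (a + k) y, SS_V hD (a + k) (y - 1), e2]
        have h3 := zc_vertex F v f (a + k) y
        rw [e2] at h3
        have h4 : ∀ p q r s t u : ZMod 2, p + q = r → t + r + (s + u) = 0 →
            p + s + (q + u) = t := by decide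
        exact h4 _ _ _ _ _ _ ih h3
    obtain ⟨k, hk⟩ : ∃ k : ℕ, x = a - 1 + k := ⟨(x - (a - 1)).toNat, by omega⟩
    have := key k
    rw [← hk] at this
    rw [← this]
    have h4 : ∀ p q : ZMod 2, p = q + (p + q) := by decide
    exact h4 _ _
  · unfold SS
    rw [Finset.Ico_eq_empty (by omega), zc_out hD]
    · simp
    · simp only [dsrc_true, inF]; omega
    · simp only [dtgt_mk, inF]; omega

theorem SS_O {x y : ℤ} (h : ¬ inF a b c d (x, y)) : SS F v f a x y = 0 := by
  by_cases hy : c ≤ y ∧ y < d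
  · by_cases hx : a ≤ x
    · have hxb : b ≤ x := by
        by_contra h3
        exact h ⟨⟨hx, by simpa using h3⟩, hy⟩
      have key : ∀ k : ℕ, SS F v f a x (c - 1 + k) = 0 := by
        intro k
        induction k with
        | zero =>
          unfold SS
          apply Finset.sum_eq_zero
          intro i _
          rw [zc_out hD]
          · simp only [dsrc_false, inF]; push_cast; omega
          · simp only [dtgt_mk, inF]; push_cast; omega
        | succ k ih =>
          have e1 : c - 1 + ((k + 1 : ℕ) : ℤ) = c + k := by push_cast; ring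
          have e2 : c + (k:ℤ) - 1 = c - 1 + k := by ring
          rw [e1, SS_H hD, e2, ih, zc_out hD, add_zero]
          · simp only [dsrc_true, inF]; omega
          · simp only [dtgt_mk, inF]; omega
      obtain ⟨k, hk⟩ : ∃ k : ℕ, y = c - 1 + k := ⟨(y - (c - 1)).toNat, by omega⟩
      rw [hk]
      exact key k
    · unfold SS
      rw [Finset.Ico_eq_empty (by omega), Finset.sum_empty]
  · unfold SS
    apply Finset.sum_eq_zero
    intro i _
    rw [zc_out hD]
    · simp only [dsrc_false, inF]; omega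
    · simp only [dtgt_mk, inF]; omega

theorem SS_step (e : Edg) : SS F v f a (dtgt e).1 (dtgt e).2 =
    SS F v f a (dsrc e).1 (dsrc e).2 + zc F v f e := by
  obtain ⟨x, y, t⟩ := e
  cases t
  · simp only [dtgt_mk, dsrc_false]
    exact SS_V hD x y
  · simp only [dtgt_mk, dsrc_true]
    exact SS_H hD x y

theorem SS_reach {g : Vtx} (h : DReach (EC F v)ᶜ f g) :
    SS F v f a g.1 g.2 = SS F v f a f.1 f.2 := by
  induction h with
  | refl => rfl
  | tail _ hs ih =>
    obtain ⟨e, he, h⟩ := hs
    have h1 := SS_step hD (v := v) e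
    rw [zc_notMem F v f he, add_zero] at h1
    rcases h with ⟨h2, h3⟩ | ⟨h2, h3⟩
    · rw [h2, h3] at h1
      rw [h1, ih]
    · rw [h2, h3] at h1
      rw [← h1, ih]

/-- the other part of the dual cluster of `f` -/
theorem prime_step {e : Edg} {u : Vtx} (hu : src e = u ∨ tgt e = u) (hC : Reach F v u) :
    b2 (DReach Fᶜ f (dtgt e)) + SS F v f a (dtgt e).1 (dtgt e).2 =
      b2 (DReach Fᶜ f (dsrc e)) + SS F v f a (dsrc e).1 (dsrc e).2 := by
  rw [SS_step hD (v := v) e, zc_inc F v f hu, b2_of hC]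
  unfold zz
  have h4 : ∀ p q r : ZMod 2, p + (q + 1 * (r + p)) = r + q := by decide
  exact h4 _ _ _

theorem prime_inc {u : Vtx} (hC : Reach F v u) {p p' : Vtx} (hp : Inc u p) (hp' : Inc u p') :
    b2 (DReach Fᶜ f p) + SS F v f a p.1 p.2 = b2 (DReach Fᶜ f p') + SS F v f a p'.1 p'.2 := by
  have key : ∀ q, Inc u q → b2 (DReach Fᶜ f q) + SS F v f a q.1 q.2 =
      b2 (DReach Fᶜ f (u.1, u.2)) + SS F v f a u.1 u.2 := by
    intro q hq
    have h1 := prime_step hD (v := v) (e := (u.1, u.2, true)) (u := u) (Or.inl rfl) hC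
    have h2 := prime_step hD (v := v) (e := (u.1, u.2, false)) (u := u) (Or.inl rfl) hC
    have h3 := prime_step hD (v := v) (e := (u.1 - 1, u.2, true)) (u := u)
      (Or.inr (by simp)) hC
    simp only [dtgt_mk, dsrc_true, dsrc_false] at h1 h2 h3
    obtain ⟨q1, q2⟩ := q
    obtain ⟨a1, a2⟩ := hq
    simp only at a1 a2 ⊢
    rcases a1 with a1 | a1 <;> rcases a2 with a2 | a2 <;> subst a1 <;> subst a2
    · rfl
    · exact h1.symm
    · exact h2.symm
    · rw [← h3, h2]
  rw [key p hp, key p' hp']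

theorem outer_arm {g : Vtx} (hg : ¬ inF a b c d g) (hout : DReach (EC F v)ᶜ f g)
    {u : Vtx} (hu : Reach F v u) (hf : Inc u f) {w : Vtx} (hw : Reach F v w) :
    inF a b c d w := by
  have hS : SS F v f a f.1 f.2 = 0 := by
    rw [← SS_reach hD (v := v) hout]
    exact SS_O hD hg
  have hf1 : b2 (DReach Fᶜ f f) + SS F v f a f.1 f.2 = 1 := by
    rw [hS, b2_of (DReach.refl _ _), add_zero]
  have huw : Reach F u w := hu.symm.trans hw
  have key : ∀ w, Reach F u w → ∀ p, Inc w p →
      b2 (DReach Fᶜ f p) + SS F v f a p.1 p.2 = 1 := by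
    intro w hw
    induction hw with
    | refl =>
      intro p hp
      rw [prime_inc hD hu hp hf, hf1]
    | @tail w' w'' h1 hs ih =>
      intro p hp
      have hw'' : Reach F v w'' := hu.trans (h1.tail hs)
      obtain ⟨e, he, h⟩ := hs
      have hinc : Inc w' (dtgt e) ∧ Inc w'' (dtgt e) := by
        obtain ⟨x, y, t⟩ := e
        cases t
        · simp only [src_mk, tgt_false] at h
          rcases h with ⟨h2, h3⟩ | ⟨h2, h3⟩
          · rw [← h2, ← h3]; simp [Inc]
          · rw [← h2, ← h3]; simp [Inc]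
        · simp only [src_mk, tgt_true] at h
          rcases h with ⟨h2, h3⟩ | ⟨h2, h3⟩
          · rw [← h2, ← h3]; simp [Inc]
          · rw [← h2, ← h3]; simp [Inc]
      rw [prime_inc hD hw'' hp hinc.2]
      exact ih _ hinc.1
  have h1 := key w huw (w.1, w.2) ⟨Or.inl rfl, Or.inl rfl⟩
  by_contra h2
  rw [b2_not_of (fun h => h2 (hD _ h)), SS_O hD h2] at h1
  simp at h1

end

end H342P
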