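import Pool.Agent.H342R2.Per.Sum

/-!
Upper bound for the outer perimeter of the largest cluster.
-/

namespace H342P

open H974 Finset

theorem markov {S : Finset Edg} {X : Finset Edg → ℝ} (hX : ∀ F, 0 ≤ X F) {t : ℝ} (ht : 0 < t) :
    Pr (fun _ => (1/2:ℝ)) S (fun F => t ≤ X F) ≤ Ex (fun _ => (1/2:ℝ)) S X / t := by
  have hok : Ok (fun _ : Edg => (1/2:ℝ)) := fun _ => ⟨by norm_num, by norm_num⟩
  rw [le_div_iff₀ ht]
  unfold Pr
  rw [← Ex_mul_right]
  apply Ex_mono hok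
  intro F _
  by_cases h : t ≤ X F
  · rw [ind_of h, one_mul]; exact h
  · rw [ind_not_of h, zero_mul]; exact hX F

theorem NN_nonneg (n : ℕ) (m : ℤ) (F : Set Edg) : 0 ≤ NN n m F := by
  unfold NN
  apply Finset.sum_nonneg
  intro e _
  exact add_nonneg (ind_nonneg _) (ind_nonneg _)

theorem card_RE_le (n : ℕ) : (RE 0 (n:ℤ) 0 n).card ≤ 2 * (n + 1) ^ 2 := by
  unfold RE
  refine (Finset.card_filter_le _ _).trans (le_of_eq ?_)
  rw [Finset.card_product, Finset.card_product, Int.card_Icc]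
  simp only [Finset.card_univ, Fintype.card_bool]
  have : ((n:ℤ) + 1 - 0).toNat = n + 1 := by omega
  rw [this]
  ring

theorem per_le_card (n : ℕ) (F : Set Edg) (v : Vtx) : per n F v ≤ 4 * (n + 1) ^ 2 := by
  classical
  have h1 : per n F v ≤ ∑ _e ∈ RE 0 (n:ℤ) 0 n, 2 := by
    unfold per
    apply Finset.sum_le_sum
    intro e _
    split_ifs <;> omega
  rw [Finset.sum_const, smul_eq_mul] at h1
  have := card_RE_le n
  omega

/-- The event that some cluster of largest diameter has a long outer perimeter. -/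
def Long (n : ℕ) (t : ℝ) (F : Set Edg) : Prop :=
  ∃ v, IsMax n F v ∧ t < (per n F v : ℝ)

theorem upper {C s : ℝ} (hC : 0 ≤ C) (hs0 : 0 ≤ s) (hs1 : s < 1) (hU : TwoUp C s)
    {δ : ℝ} (hδ : 0 < δ) :
    ∃ Λ : ℝ, 0 < Λ ∧ ∀ n : ℕ, 1 ≤ n → Pr (fun _ => (1/2:ℝ)) (RE 0 n 0 n)
      (fun F => Long n (Λ * (n:ℝ) ^ (2 - s)) (↑F)) ≤ δ := by
  have hok : Ok (fun _ : Edg => (1/2:ℝ)) := fun _ => ⟨by norm_num, by norm_num⟩
  obtain ⟨K0, hK0⟩ := exists_pow_lt_of_lt_one (show (0:ℝ) < δ / 2 by linarith)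
    (show (1/2:ℝ) < 1 by norm_num)
  set K := K0 + 1 with hK
  have hKd : (1/2:ℝ) ^ K ≤ δ / 2 := by
    rw [hK, pow_succ]
    have : (0:ℝ) ≤ (1/2) ^ K0 := by positivity
    linarith
  have hs1' : 0 < 1 - s := by linarith
  set A : ℝ := 16 * C * (12 * K) ^ s + 32 * (1 + C / (1 - s)) with hA
  have hA0 : 0 < A := by
    have : 0 ≤ C / (1 - s) := by positivity
    have : 0 ≤ 16 * C * (12 * (K:ℝ)) ^ s := by positivity
    linarith
  set N : ℕ := 16 * K with hN
  refine ⟨2 * A / δ + 4 * (N + 1) ^ 2, by positivity, ?_⟩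
  intro n hn
  have hn1 : (1:ℝ) ≤ n := by exact_mod_cast hn
  have hn0 : (0:ℝ) < n := by linarith
  have hpow1 : (1:ℝ) ≤ (n:ℝ) ^ (2 - s) := Real.one_le_rpow hn1 (by linarith)
  by_cases hnN : n < N
  · have : ∀ F : Finset Edg, F ⊆ RE 0 n 0 n →
        ¬ Long n ((2 * A / δ + 4 * (N + 1) ^ 2) * (n:ℝ) ^ (2 - s)) (↑F) := by
      rintro F _ ⟨v, -, h2⟩
      have h3 : (per n (↑F) v : ℝ) ≤ 4 * (n + 1) ^ 2 := by
        exact_mod_cast per_le_card n (↑F) v
      have h4 : (4:ℝ) * (n + 1) ^ 2 ≤ 4 * (N + 1) ^ 2 := by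
        have : (n:ℝ) ≤ N := by exact_mod_cast hnN.le
        gcongr
      have h5 : (4:ℝ) * (N + 1) ^ 2 ≤ (2 * A / δ + 4 * (N + 1) ^ 2) * (n:ℝ) ^ (2 - s) := by
        have h6 : 0 ≤ 2 * A / δ := by positivity
        have h7 : (0:ℝ) ≤ 4 * (N + 1) ^ 2 := by positivity
        nlinarith
      linarith
    have h0 : Pr (fun _ => (1/2:ℝ)) (RE 0 n 0 n)
        (fun F => Long n ((2 * A / δ + 4 * (N + 1) ^ 2) * (n:ℝ) ^ (2 - s)) (↑F)) ≤
        Pr (fun _ => (1/2:ℝ)) (RE 0 n 0 n) (fun _ => ¬ True) := by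
      apply Pr_mono hok
      intro F hF h
      exact absurd h (this F hF)
    rw [Pr_not, Pr_true _ (fun _ _ => trivial)] at h0
    linarith
  · rw [not_lt] at hnN
    set L : ℕ := n / (2 * K) with hL
    set m : ℕ := L / 3 with hm
    have hKpos : 0 < K := by omega
    have hLn : 2 * K * L ≤ n := Nat.mul_div_le n (2 * K)
    have hLn2 : n < 2 * K * (L + 1) := Nat.lt_mul_div_succ n (by omega)
    have hm1 : 3 * m ≤ L := Nat.mul_div_le L 3
    have hm2 : L < 3 * (m + 1) := Nat.lt_mul_div_succ L (by omega)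
    have hL8 : 8 ≤ L := by
      rw [hL]
      rw [Nat.le_div_iff_mul_le (by omega)]
      omega
    have hmpos : 2 ≤ m := by omega
    have hKL : K * (L + 1) ≤ n + 1 := by nlinarith
    have hLnn : L ≤ n := by nlinarith
    have hnm : n ≤ 12 * K * m := by
      have : 2 * K * (L + 1) ≤ 2 * K * (3 * (m + 1)) := by gcongr; omega
      nlinarith
    have hNB := pr_not_big (n := n) (L := L) (K := K) (by omega) (m := (m:ℤ)) (by omega)
      (by exact_mod_cast hm1) hKL hLnn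
    set t : ℝ := (2 * A / δ + 4 * (N + 1) ^ 2) * (n:ℝ) ^ (2 - s) with ht
    have htpos : 0 < t := by positivity
    have h1 : Pr (fun _ => (1/2:ℝ)) (RE 0 n 0 n) (fun F => Long n t (↑F)) ≤
        Pr (fun _ => (1/2:ℝ)) (RE 0 n 0 n) (fun F => t ≤ NN n m (↑F) ∨ ¬ Big n m (↑F)) := by
      apply Pr_mono hok
      rintro F _ ⟨v, h2, h3⟩
      by_cases hb : Big n m (↑F)
      · left
        exact h3.le.trans (per_le h2 hb)
      · exact Or.inr hb
    have h2 := Pr_or_le hok (RE 0 n 0 n) (fun F => t ≤ NN n m (↑F))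
      (fun F => ¬ Big n m (↑F))
    have h3 := markov (S := RE 0 n 0 n) (X := fun F => NN n m (↑F))
      (fun F => NN_nonneg n m (↑F)) htpos
    have h4 := ex_NN_le hC hU n m
    have h5 := sum_ph_le hC hs0 hs1 n
    have hmR : (n:ℝ) / (12 * K) ≤ m := by
      rw [div_le_iff₀ (by positivity)]
      have : (n:ℝ) ≤ 12 * K * m := by exact_mod_cast hnm
      linarith
    have h6 : ph C s (m:ℤ) ≤ C * ((12 * K) ^ s * (n:ℝ) ^ (-s)) := by
      unfold ph
      rw [if_neg (by omega)]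
      have h7 : ((m:ℤ):ℝ) ^ (-s) ≤ ((n:ℝ) / (12 * K)) ^ (-s) := by
        apply Real.rpow_le_rpow_of_nonpos (by positivity) (by exact_mod_cast hmR) (by linarith)
      have h8 : ((n:ℝ) / (12 * K)) ^ (-s) = (12 * K) ^ s * (n:ℝ) ^ (-s) := by
        rw [Real.div_rpow hn0.le (by positivity), Real.rpow_neg (by positivity : (0:ℝ) ≤ 12 * K)]
        field_simp
      rw [← h8]
      gcongr
    have h9 : (n:ℝ) ^ 2 * (n:ℝ) ^ (-s) = (n:ℝ) ^ (2 - s) := by
      rw [← Real.rpow_natCast, ← Real.rpow_add hn0]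
      norm_num
      ring_nf
    have h10 : (n:ℝ) * (n:ℝ) ^ (1 - s) = (n:ℝ) ^ (2 - s) := by
      rw [show (2 - s) = 1 + (1 - s) by ring, Real.rpow_add hn0, Real.rpow_one]
    have h11 : (1:ℝ) ≤ (n:ℝ) ^ (1 - s) := Real.one_le_rpow hn1 (by linarith)
    have h12 : Ex (fun _ => (1/2:ℝ)) (RE 0 n 0 n) (fun F => NN n m (↑F)) ≤
        A * (n:ℝ) ^ (2 - s) := by
      refine h4.trans ?_
      have h13 : ((n:ℝ) + 1) ^ 2 * ph C s m ≤
          (4 * (n:ℝ) ^ 2) * (C * ((12 * K) ^ s * (n:ℝ) ^ (-s))) := by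
        apply mul_le_mul _ h6 (ph_nonneg hC _) (by positivity)
        nlinarith
      have h14 : 4 * ((n:ℝ) + 1) * ∑ x ∈ Finset.Icc (0:ℤ) n, ph C s x ≤
          (8 * (n:ℝ)) * ((1 + C / (1 - s)) * (n:ℝ) ^ (1 - s)) := by
        apply mul_le_mul (by linarith) _ (Finset.sum_nonneg (fun x _ => ph_nonneg hC x))
          (by positivity)
        refine h5.trans ?_
        have : C * ((n:ℝ) ^ (1 - s) / (1 - s)) = C / (1 - s) * (n:ℝ) ^ (1 - s) := by
          field_simp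
        rw [this, add_mul]
        linarith
      have h15 : (4 * (n:ℝ) ^ 2) * (C * ((12 * K) ^ s * (n:ℝ) ^ (-s))) =
          4 * C * (12 * K) ^ s * (n:ℝ) ^ (2 - s) := by
        rw [← h9]; ring
      have h16 : (8 * (n:ℝ)) * ((1 + C / (1 - s)) * (n:ℝ) ^ (1 - s)) =
          8 * (1 + C / (1 - s)) * (n:ℝ) ^ (2 - s) := by
        rw [← h10]; ring
      rw [hA]
      rw [h15] at h13
      rw [h16] at h14
      linarith
    have h17 : Ex (fun _ => (1/2:ℝ)) (RE 0 n 0 n) (fun F => NN n m (↑F)) / t ≤ δ / 2 := by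
      rw [div_le_iff₀ htpos]
      refine h12.trans ?_
      have h18 : A ≤ δ / 2 * (2 * A / δ + 4 * (N + 1) ^ 2) := by
        have : δ / 2 * (2 * A / δ) = A := by field_simp
        rw [mul_add, this]
        have : 0 ≤ δ / 2 * (4 * ((N:ℝ) + 1) ^ 2) := by positivity
        linarith
      rw [ht, ← mul_assoc]
      exact mul_le_mul_of_nonneg_right h18 (by positivity)
    linarith

end H342P
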