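import Mathlib.Combinatorics.SimpleGraph.Connectivity.Connected
import Pool.Agent.H342R2.Per.Upper

/-!
Plain definitions for the final statement and their relation to the definitions of `Model.lean`.
-/

namespace H342P.Plain

open Finset

/-- The edges of the square lattice: `(x, y, true)` is the edge from `(x, y)` to `(x + 1, y)` and
`(x, y, false)` is the edge from `(x, y)` to `(x, y + 1)`. -/
abbrev Edge := ℤ × ℤ × Bool

/-- First endpoint of an edge. -/
def fst (e : Edge) : ℤ × ℤ := (e.1, e.2.1)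

/-- Second endpoint of an edge. -/
def snd (e : Edge) : ℤ × ℤ := if e.2.2 = true then (e.1 + 1, e.2.1) else (e.1, e.2.1 + 1)

/-- The box `Λ_n = {0, …, n}²`. -/
noncomputable def box (n : ℕ) : Finset (ℤ × ℤ) := Finset.Icc (0 : ℤ) n ×ˢ Finset.Icc (0 : ℤ) n

/-- The edges with both endpoints in `Λ_n`. -/
noncomputable def edges (n : ℕ) : Finset Edge :=
  ((Finset.Icc (0 : ℤ) n) ×ˢ ((Finset.Icc (0 : ℤ) n) ×ˢ Finset.univ)).filter
    (fun e => fst e ∈ box n ∧ snd e ∈ box n)

open Classical in
/-- Probability of the event `A` for critical bond percolation in `Λ_n`: the set `F` of open edges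
is uniformly distributed on the subsets of `edges n` (all edges are open with probability `1/2`,
independently). -/
noncomputable def prob (n : ℕ) (A : Finset Edge → Prop) : ℝ :=
  (((edges n).powerset.filter A).card : ℝ) / 2 ^ (edges n).card

/-- The graph of the open edges. -/
def openGraph (F : Finset Edge) : SimpleGraph (ℤ × ℤ) :=
  SimpleGraph.fromRel (fun u w => ∃ e ∈ F, fst e = u ∧ snd e = w)

/-- The vertices of the cluster of `v`. -/
def cluster (F : Finset Edge) (v : ℤ × ℤ) : Set (ℤ × ℤ) := {w | (openGraph F).Reachable v w}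

/-- The edges of the cluster of `v`. -/
def clusterEdges (F : Finset Edge) (v : ℤ × ℤ) : Set Edge := {e | e ∈ F ∧ fst e ∈ cluster F v}

/-- Square of the Euclidean distance. -/
def sqDist (u v : ℤ × ℤ) : ℤ := (u.1 - v.1) ^ 2 + (u.2 - v.2) ^ 2

/-- The cluster of the vertex `v` of `Λ_n` has the largest Euclidean diameter among all clusters
in `Λ_n`: it contains two vertices whose distance is not smaller than the distance of any two
vertices of the same cluster of `Λ_n`. -/
def Largest (n : ℕ) (F : Finset Edge) (v : ℤ × ℤ) : Prop :=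
  v ∈ box n ∧ ∃ a ∈ cluster F v, ∃ b ∈ cluster F v,
    ∀ c ∈ box n, ∀ d ∈ box n, d ∈ cluster F c → sqDist c d ≤ sqDist a b

/-- The face `(x, y)` is the open unit square with lower left corner `(x, y)`.  This is the face
below the horizontal edge `(x, y, true)`, or left of the vertical edge `(x, y, false)`. -/
def side₁ (e : Edge) : ℤ × ℤ := if e.2.2 = true then (e.1, e.2.1 - 1) else (e.1 - 1, e.2.1)

/-- The face above the horizontal edge `(x, y, true)`, or right of the vertical edge
`(x, y, false)`. -/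
def side₂ (e : Edge) : ℤ × ℤ := (e.1, e.2.1)

/-- Faces with a common edge which is not in `C`. -/
def faceGraph (C : Set Edge) : SimpleGraph (ℤ × ℤ) :=
  SimpleGraph.fromRel (fun f g => ∃ e, e ∉ C ∧ side₁ e = f ∧ side₂ e = g)

/-- The face `f` lies in the unbounded component of the complement in `ℝ²` of the cluster of `v`:
it is joined to the face `(-1, -1)` outside `Λ_n` by a path of faces which crosses no edge of the
cluster. -/
def Outer (F : Finset Edge) (v f : ℤ × ℤ) : Prop :=
  (faceGraph (clusterEdges F v)).Reachable f (-1, -1)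

open Classical in
/-- Number of steps of the closed lattice path which traces the boundary `∂C` of the unbounded
component of the complement of the cluster `C` of `v`: each edge of `C` is counted once for each
of its two sides which lies in this component. -/
noncomputable def perimeter (F : Finset Edge) (v : ℤ × ℤ) : ℕ :=
  ∑ e ∈ F, if e ∈ clusterEdges F v then
    ((if Outer F v (side₁ e) then 1 else 0) + (if Outer F v (side₂ e) then 1 else 0)) else 0

open Classical in
/-- Number of different edges in the boundary `∂C`. -/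
noncomputable def perimeterEdges (F : Finset Edge) (v : ℤ × ℤ) : ℕ :=
  (F.filter (fun e => e ∈ clusterEdges F v ∧ (Outer F v (side₁ e) ∨ Outer F v (side₂ e)))).card

/-! ### Comparison -/

theorem edges_eq (n : ℕ) : edges n = H974.RE 0 n 0 n := by
  ext ⟨x, y, t⟩
  cases t
  · rw [H974.mem_RE_false]
    simp only [edges, fst, snd, box, Finset.mem_filter, Finset.mem_product, Finset.mem_Icc,
      Finset.mem_univ, Bool.false_eq_true, if_false, and_true]
    omega
  · rw [H974.mem_RE_true]
    simp only [edges, fst, snd, box, Finset.mem_filter, Finset.mem_product, Finset.mem_Icc,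
      Finset.mem_univ, if_true, and_true]
    omega

theorem fst_eq (e : Edge) : fst e = H974.src e := rfl

theorem snd_eq (e : Edge) : snd e = H974.tgt e := by
  obtain ⟨x, y, t⟩ := e
  cases t <;> simp [snd, H974.tgt]

theorem side₁_eq (e : Edge) : side₁ e = H974.dsrc e := by
  obtain ⟨x, y, t⟩ := e
  cases t <;> simp [side₁, H974.dsrc]

theorem side₂_eq (e : Edge) : side₂ e = H974.dtgt e := rfl

theorem fst_ne_snd (e : Edge) : fst e ≠ snd e := by
  obtain ⟨x, y, t⟩ := e
  cases t <;> simp [fst, snd]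

theorem side₁_ne_side₂ (e : Edge) : side₁ e ≠ side₂ e := by
  obtain ⟨x, y, t⟩ := e
  cases t <;> simp [side₁, side₂]

theorem reachable_iff {G : SimpleGraph (ℤ × ℤ)} {R : ℤ × ℤ → ℤ × ℤ → Prop}
    (h : ∀ u v, G.Adj u v ↔ R u v) (u v : ℤ × ℤ) :
    G.Reachable u v ↔ Relation.ReflTransGen R u v := by
  rw [SimpleGraph.reachable_iff_reflTransGen]
  have : G.Adj = R := by
    funext a b
    exact propext (h a b)
  rw [this]

theorem openGraph_adj (F : Finset Edge) (u v : ℤ × ℤ) :
    (openGraph F).Adj u v ↔ H974.Adj (↑F : Set Edge) u v := by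
  unfold openGraph H974.Adj
  rw [SimpleGraph.fromRel_adj]
  constructor
  · rintro ⟨-, ⟨e, he, h1, h2⟩ | ⟨e, he, h1, h2⟩⟩
    · exact ⟨e, he, Or.inl ⟨h1, by rw [← snd_eq]; exact h2⟩⟩
    · exact ⟨e, he, Or.inr ⟨h1, by rw [← snd_eq]; exact h2⟩⟩
  · rintro ⟨e, he, ⟨h1, h2⟩ | ⟨h1, h2⟩⟩
    · rw [← snd_eq] at h2
      refine ⟨?_, Or.inl ⟨e, he, h1, h2⟩⟩
      rw [← h1, ← h2]; exact fst_ne_snd e
    · rw [← snd_eq] at h2
      refine ⟨?_, Or.inr ⟨e, he, h1, h2⟩⟩
      rw [← h1, ← h2]; exact (fst_ne_snd e).symm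

theorem mem_cluster (F : Finset Edge) (v w : ℤ × ℤ) :
    w ∈ cluster F v ↔ H974.Reach (↑F : Set Edge) v w := by
  unfold cluster
  rw [Set.mem_ofPred_eq, reachable_iff (openGraph_adj F)]
  rfl

theorem clusterEdges_eq (F : Finset Edge) (v : ℤ × ℤ) :
    clusterEdges F v = EC (↑F : Set Edge) v := by
  ext e
  unfold clusterEdges EC
  rw [Set.mem_ofPred_eq, Set.mem_ofPred_eq, mem_cluster]
  rfl

theorem faceGraph_adj (C : Set Edge) (f g : ℤ × ℤ) :
    (faceGraph C).Adj f g ↔ H974.DAdj Cᶜ f g := by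
  unfold faceGraph H974.DAdj
  rw [SimpleGraph.fromRel_adj]
  constructor
  · rintro ⟨-, ⟨e, he, h1, h2⟩ | ⟨e, he, h1, h2⟩⟩
    · exact ⟨e, he, Or.inl ⟨by rw [← side₁_eq]; exact h1, h2⟩⟩
    · exact ⟨e, he, Or.inr ⟨by rw [← side₁_eq]; exact h1, h2⟩⟩
  · rintro ⟨e, he, ⟨h1, h2⟩ | ⟨h1, h2⟩⟩
    · rw [← side₁_eq] at h1
      refine ⟨?_, Or.inl ⟨e, he, h1, h2⟩⟩
      rw [← h1, ← h2]; exact side₁_ne_side₂ e
    · rw [← side₁_eq] at h1
      refine ⟨?_, Or.inr ⟨e, he, h1, h2⟩⟩
      rw [← h1, ← h2]; exact (side₁_ne_side₂ e).symm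

theorem outer_iff (F : Finset Edge) (v f : ℤ × ℤ) :
    Outer F v f ↔ H342P.Outer (↑F : Set Edge) v f := by
  unfold Outer H342P.Outer
  rw [reachable_iff (faceGraph_adj _), clusterEdges_eq]
  rfl

theorem perimeter_eq {n : ℕ} {F : Finset Edge} (hF : F ⊆ edges n) (v : ℤ × ℤ) :
    perimeter F v = per n (↑F : Set Edge) v := by
  classical
  unfold perimeter per
  rw [edges_eq] at hF
  rw [← Finset.sum_subset hF]
  · apply Finset.sum_congr rfl
    intro e _
    simp only [clusterEdges_eq, outer_iff, side₁_eq, side₂_eq]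
  · intro e _ he
    rw [if_neg]
    intro h
    exact he (by exact_mod_cast h.1)

theorem perimeterEdges_le (F : Finset Edge) (v : ℤ × ℤ) : perimeterEdges F v ≤ perimeter F v := by
  classical
  unfold perimeterEdges perimeter
  rw [Finset.card_filter]
  apply Finset.sum_le_sum
  intro e _
  split_ifs <;> simp_all

theorem perimeter_le (F : Finset Edge) (v : ℤ × ℤ) :
    perimeter F v ≤ 2 * perimeterEdges F v := by
  classical
  unfold perimeterEdges perimeter
  rw [Finset.card_filter, Finset.mul_sum]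
  apply Finset.sum_le_sum
  intro e _
  split_ifs <;> simp_all

theorem isMax_of_largest {n : ℕ} {F : Finset Edge} {v : ℤ × ℤ} (h : Largest n F v) :
    IsMax n (↑F : Set Edge) v := by
  obtain ⟨-, a, ha, b, hb, h2⟩ := h
  refine ⟨a, b, (mem_cluster _ _ _).mp ha, (mem_cluster _ _ _).mp hb, ?_⟩
  intro c d hc hd hcd
  refine h2 c ?_ d ?_ ((mem_cluster _ _ _).mpr hcd)
  · unfold box; rw [Finset.mem_product, Finset.mem_Icc, Finset.mem_Icc]; unfold H974.inR at hc; omega
  · unfold box; rw [Finset.mem_product, Finset.mem_Icc, Finset.mem_Icc]; unfold H974.inR at hd; omega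

theorem prob_eq (n : ℕ) (A : Finset Edge → Prop) :
    prob n A = H974.Pr (fun _ => (1/2:ℝ)) (H974.RE 0 n 0 n) A := by
  classical
  unfold prob H974.Pr H974.Ex
  rw [edges_eq]
  set S := H974.RE (0:ℤ) n 0 n
  have h1 : ∀ F ∈ S.powerset, (∏ _e ∈ F, (1/2:ℝ)) * (∏ _e ∈ S \ F, (1 - (1/2:ℝ))) *
      H974.ind (A F) = (1/2:ℝ) ^ S.card * H974.ind (A F) := by
    intro F hF
    rw [Finset.mem_powerset] at hF
    rw [Finset.prod_const, Finset.prod_const]
    have h2 : (1:ℝ) - 1/2 = 1/2 := by norm_num
    rw [h2, ← pow_add, Finset.card_sdiff_of_subset hF]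
    have h3 := Finset.card_le_card hF
    congr 2
    omega
  rw [Finset.sum_congr rfl h1, ← Finset.mul_sum]
  have h4 : ∑ F ∈ S.powerset, H974.ind (A F) = ((S.powerset.filter A).card : ℝ) := by
    rw [Finset.card_filter]
    push_cast
    apply Finset.sum_congr rfl
    intro F _
    by_cases h : A F
    · rw [H974.ind_of h, if_pos h]
    · rw [H974.ind_not_of h, if_neg h]
  rw [h4]
  rw [one_div, inv_pow]
  field_simp

theorem prob_le_of_pr {n : ℕ} {A : Finset Edge → Prop} {B : Finset Edge → Prop}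
    (h : ∀ F, F ⊆ edges n → A F → B F) :
    prob n A ≤ H974.Pr (fun _ => (1/2:ℝ)) (H974.RE 0 n 0 n) B := by
  rw [prob_eq]
  apply H974.Pr_mono (fun _ => ⟨by norm_num, by norm_num⟩)
  intro F hF
  exact h F (by rw [edges_eq]; exact hF)

theorem prob_not (n : ℕ) (A : Finset Edge → Prop) : prob n (fun F => ¬ A F) = 1 - prob n A := by
  rw [prob_eq, prob_eq, H974.Pr_not]

end H342P.Plain
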