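import Pool.Agent.H342R2.Per.Plain
import Pool.Agent.H984R3.Per.FinalSharp

/-!
Both halves of the perimeter exponent in the sharp form, from the two inputs.
-/

namespace H342P

open H974 Finset Filter Topology

namespace Plain

/-- Every configuration has a cluster of largest diameter. -/
theorem exists_largest (n : ℕ) (F : Finset Edge) : ∃ v, Largest n F v := by
  classical
  have h0 : ((0, 0) : ℤ × ℤ) ∈ box n := by
    simp [box]
  set P : Finset ((ℤ × ℤ) × (ℤ × ℤ)) := (box n ×ˢ box n).filter (fun q => q.2 ∈ cluster F q.1)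
  have hP : P.Nonempty := by
    refine ⟨((0, 0), (0, 0)), ?_⟩
    rw [Finset.mem_filter, Finset.mem_product]
    exact ⟨⟨h0, h0⟩, SimpleGraph.Reachable.refl _⟩
  obtain ⟨q, hq, hmax⟩ := P.exists_max_image (fun q => sqDist q.1 q.2) hP
  rw [Finset.mem_filter, Finset.mem_product] at hq
  refine ⟨q.1, hq.1.1, q.1, SimpleGraph.Reachable.refl _, q.2, hq.2, ?_⟩
  intro c hc d hd hcd
  exact hmax (c, d) (by rw [Finset.mem_filter, Finset.mem_product]; exact ⟨⟨hc, hd⟩, hcd⟩)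

end Plain

/-- The sharp form: the perimeter of the largest cluster is of order `n ^ (7/4)`. -/
theorem sharp_of {c C : ℝ} (hc : 0 < c) (hC : 0 < C) (hL : H984P.LowA c (1/4))
    (hU : TwoUp C (1/4)) {δ : ℝ} (hδ : 0 < δ) :
    ∃ lam Lam : ℝ, 0 < lam ∧ lam < Lam ∧ ∀ᶠ n : ℕ in atTop,
      1 - δ ≤ Plain.prob n (fun F => ∀ v, Plain.Largest n F v →
        lam * (n:ℝ) ^ (7/4 : ℝ) ≤ (Plain.perimeterEdges F v : ℝ) ∧
          (Plain.perimeter F v : ℝ) ≤ Lam * (n:ℝ) ^ (7/4 : ℝ)) := by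
  have hok : Ok (fun _ : Edg => (1/2:ℝ)) := fun _ => ⟨by norm_num, by norm_num⟩
  obtain ⟨Λ, hΛ, h1⟩ := upper (C := C) (s := 1/4) hC.le (by norm_num) (by norm_num)
    hU (show 0 < δ / 2 by linarith)
  obtain ⟨lam, hlam, n0, h2⟩ := H984P.lower_sharp hc hC hL hU (show 0 < δ / 2 by linarith)
  refine ⟨lam / 2, Λ + lam, by linarith, by linarith, ?_⟩
  filter_upwards [eventually_ge_atTop (max n0 1)] with n hn
  have hn1 : 1 ≤ n := (le_max_right _ _).trans hn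
  have hn0 : n0 ≤ n := (le_max_left _ _).trans hn
  have hnpos : (0:ℝ) < n := by exact_mod_cast hn1
  have hx : (0:ℝ) < (n:ℝ) ^ (7/4 : ℝ) := by positivity
  have h3 := h1 n hn1
  rw [show (2 - (1/4:ℝ)) = 7/4 by norm_num] at h3
  have h4 := h2 n hn0
  set A : Finset Plain.Edge → Prop := fun F => ∀ v, Plain.Largest n F v →
        lam / 2 * (n:ℝ) ^ (7/4 : ℝ) ≤ (Plain.perimeterEdges F v : ℝ) ∧
          (Plain.perimeter F v : ℝ) ≤ (Λ + lam) * (n:ℝ) ^ (7/4 : ℝ) with hA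
  have h5 := Plain.prob_not n A
  have h6 : Plain.prob n (fun F => ¬ A F) ≤
      Pr (fun _ => (1/2:ℝ)) (RE 0 n 0 n) (fun F => Long n (Λ * (n:ℝ) ^ (7/4 : ℝ)) (↑F) ∨
        ∃ v, IsMax n (↑F) v ∧ (per n (↑F) v : ℝ) < lam * (n:ℝ) ^ (7/4 : ℝ)) := by
    apply Plain.prob_le_of_pr
    intro F hF hnot
    rw [hA] at hnot
    push Not at hnot
    obtain ⟨v, hv, h7⟩ := hnot
    have hm := Plain.isMax_of_largest hv
    have hp := Plain.perimeter_eq hF v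
    have hpe := Plain.perimeter_le F v
    have hpe' : (Plain.perimeter F v : ℝ) ≤ 2 * (Plain.perimeterEdges F v : ℝ) := by
      exact_mod_cast hpe
    by_cases h8 : lam / 2 * (n:ℝ) ^ (7/4 : ℝ) ≤ (Plain.perimeterEdges F v : ℝ)
    · left
      refine ⟨v, hm, ?_⟩
      have h9 := h7 h8
      rw [← hp]
      nlinarith
    · right
      refine ⟨v, hm, ?_⟩
      rw [← hp]
      rw [not_le] at h8
      linarith
  have h7 := h6.trans (Pr_or_le hok _ _ _)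
  linarith

/-- The weak form follows from the sharp form. -/
theorem weak_of_sharp (h : ∀ δ : ℝ, 0 < δ → ∃ lam Lam : ℝ, 0 < lam ∧ lam < Lam ∧
      ∀ᶠ n : ℕ in atTop,
      1 - δ ≤ Plain.prob n (fun F => ∀ v, Plain.Largest n F v →
        lam * (n:ℝ) ^ (7/4 : ℝ) ≤ (Plain.perimeterEdges F v : ℝ) ∧
          (Plain.perimeter F v : ℝ) ≤ Lam * (n:ℝ) ^ (7/4 : ℝ))) {ε : ℝ} (hε : 0 < ε) :
    Tendsto (fun n : ℕ => Plain.prob n (fun F => ∀ v, Plain.Largest n F v →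
      (n:ℝ) ^ (7/4 - ε) < (Plain.perimeterEdges F v : ℝ) ∧
        (Plain.perimeter F v : ℝ) < (n:ℝ) ^ (7/4 + ε))) atTop (𝓝 1) := by
  have hok : Ok (fun _ : Edg => (1/2:ℝ)) := fun _ => ⟨by norm_num, by norm_num⟩
  rw [Metric.tendsto_atTop]
  intro δ hδ
  obtain ⟨lam, Lam, hlam, hlL, h1⟩ := h (δ / 2) (by linarith)
  have h4 : Tendsto (fun n : ℕ => (n:ℝ) ^ ε) atTop atTop :=
    (tendsto_rpow_atTop hε).comp tendsto_natCast_atTop_atTop
  have h5 := (tendsto_atTop.mp h4 (Lam + 1))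
  have h6 := (tendsto_atTop.mp h4 (1 / lam + 1))
  have key := h1.and (h5.and (h6.and (eventually_ge_atTop 1)))
  obtain ⟨N, hN⟩ := eventually_atTop.mp key
  refine ⟨N, fun n hn => ?_⟩
  obtain ⟨g1, g2, g3, g4⟩ := hN n hn
  have hnpos : (0:ℝ) < n := by exact_mod_cast g4
  have hx : (0:ℝ) < (n:ℝ) ^ (7/4 : ℝ) := by positivity
  have hxe : (0:ℝ) < (n:ℝ) ^ (7/4 - ε : ℝ) := by positivity
  have e1 : (n:ℝ) ^ (7/4 + ε) = (n:ℝ) ^ (7/4 : ℝ) * (n:ℝ) ^ ε := Real.rpow_add hnpos _ _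
  have e2 : (n:ℝ) ^ (7/4 : ℝ) = (n:ℝ) ^ (7/4 - ε) * (n:ℝ) ^ ε := by
    rw [← Real.rpow_add hnpos]; congr 1; ring
  have hmono : Plain.prob n (fun F => ∀ v, Plain.Largest n F v →
        lam * (n:ℝ) ^ (7/4 : ℝ) ≤ (Plain.perimeterEdges F v : ℝ) ∧
          (Plain.perimeter F v : ℝ) ≤ Lam * (n:ℝ) ^ (7/4 : ℝ)) ≤
      Plain.prob n (fun F => ∀ v, Plain.Largest n F v →
      (n:ℝ) ^ (7/4 - ε) < (Plain.perimeterEdges F v : ℝ) ∧
        (Plain.perimeter F v : ℝ) < (n:ℝ) ^ (7/4 + ε)) := by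
    rw [Plain.prob_eq, Plain.prob_eq]
    apply Pr_mono hok
    intro F _ hF v hv
    obtain ⟨k1, k2⟩ := hF v hv
    refine ⟨lt_of_lt_of_le ?_ k1, lt_of_le_of_lt k2 ?_⟩
    · rw [e2]
      have : 1 < lam * (n:ℝ) ^ ε := by
        have : lam * (1 / lam + 1) ≤ lam * (n:ℝ) ^ ε := mul_le_mul_of_nonneg_left g3 hlam.le
        have e : lam * (1 / lam + 1) = 1 + lam := by field_simp
        linarith
      calc (n:ℝ) ^ (7/4 - ε) = (n:ℝ) ^ (7/4 - ε) * 1 := (mul_one _).symm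
        _ < (n:ℝ) ^ (7/4 - ε) * (lam * (n:ℝ) ^ ε) := by gcongr
        _ = lam * ((n:ℝ) ^ (7/4 - ε) * (n:ℝ) ^ ε) := by ring
    · rw [e1, mul_comm Lam]
      gcongr
      linarith
  have hle : Plain.prob n (fun F => ∀ v, Plain.Largest n F v →
      (n:ℝ) ^ (7/4 - ε) < (Plain.perimeterEdges F v : ℝ) ∧
        (Plain.perimeter F v : ℝ) < (n:ℝ) ^ (7/4 + ε)) ≤ 1 := by
    rw [Plain.prob_eq]
    exact Pr_le_one hok _ _
  rw [Real.dist_eq, abs_of_nonpos (by linarith)]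
  linarith

end H342P
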