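import Pool.Agent.H342R2.Per.Loc
import Pool.Agent.H342R2.Per.Big

/-!
First moment of the number of two-arm pairs.
-/

namespace H342P

open H974 Finset

/-- The bound for the two-arm probability at radius `k`; the trivial bound if `k ≤ 0`. -/
noncomputable def ph (C s : ℝ) (k : ℤ) : ℝ := if k ≤ 0 then 1 else C * (k:ℝ) ^ (-s)

theorem ph_nonneg {C s : ℝ} (hC : 0 ≤ C) (k : ℤ) : 0 ≤ ph C s k := by
  unfold ph
  split_ifs with h
  · norm_num
  · have : (0:ℝ) ≤ k := by exact_mod_cast (by omega : 0 ≤ k)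
    positivity

/-- The two-arm bound. -/
def TwoUp (C s : ℝ) : Prop := ∀ (m : ℤ) (u f : Vtx), 0 < m → Inc u f →
  Pr (fun _ => (1/2:ℝ)) (RE (u.1 - m) (u.1 + m) (u.2 - m) (u.2 + m))
    (fun F => Two u f m (↑F)) ≤ C * (m:ℝ) ^ (-s)

theorem box_sub {n : ℕ} {u : Vtx} {k : ℤ} (hk : k ≤ bdist n u) :
    RE (u.1 - k) (u.1 + k) (u.2 - k) (u.2 + k) ⊆ RE 0 n 0 n := by
  unfold bdist at hk
  rintro ⟨x, y, t⟩ he
  cases t
  · rw [mem_RE_false] at he ⊢; omega
  · rw [mem_RE_true] at he ⊢; omega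

theorem pr_two_le {C s : ℝ} (hU : TwoUp C s) {n : ℕ} {u f : Vtx} (hf : Inc u f)
    {k : ℤ} (hk : k ≤ bdist n u) :
    Pr (fun _ => (1/2:ℝ)) (RE 0 n 0 n) (fun F => Two u f k (↑F)) ≤ ph C s k := by
  unfold ph
  split_ifs with h
  · exact Pr_le_one (fun _ => ⟨by norm_num, by norm_num⟩) _ _
  · rw [pr_two (by omega) (box_sub hk)]
    exact hU k u f (by omega) hf

theorem ph_min {C s : ℝ} (hC : 0 ≤ C) (n : ℕ) (m : ℤ) (u : Vtx) :
    ph C s (min m (bdist n u)) ≤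
      ph C s m + (ph C s u.1 + ph C s (n - u.1) + (ph C s u.2 + ph C s (n - u.2))) := by
  have h1 := ph_nonneg (s := s) hC m
  have h2 := ph_nonneg (s := s) hC u.1
  have h3 := ph_nonneg (s := s) hC (n - u.1)
  have h4 := ph_nonneg (s := s) hC u.2
  have h5 := ph_nonneg (s := s) hC (n - u.2)
  unfold bdist
  rcases min_choice m (min (min u.1 (n - u.1)) (min u.2 (n - u.2))) with h | h <;> rw [h]
  · linarith
  · rcases min_choice (min u.1 ((n:ℤ) - u.1)) (min u.2 (n - u.2)) with h | h <;> rw [h]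
    · rcases min_choice u.1 ((n:ℤ) - u.1) with h | h <;> rw [h] <;> linarith
    · rcases min_choice u.2 ((n:ℤ) - u.2) with h | h <;> rw [h] <;> linarith

theorem sum_refl (n : ℕ) (g : ℤ → ℝ) :
    ∑ x ∈ Finset.Icc (0:ℤ) n, g (n - x) = ∑ x ∈ Finset.Icc (0:ℤ) n, g x := by
  apply Finset.sum_nbij' (fun x => (n:ℤ) - x) (fun x => (n:ℤ) - x)
  · intro x hx; rw [Finset.mem_Icc] at hx ⊢; omega
  · intro x hx; rw [Finset.mem_Icc] at hx ⊢; omega
  · intro x _; ring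
  · intro x _; ring
  · intro x _; rfl

theorem sum_RE_le (n : ℕ) (ψ : Vtx → ℝ) (hψ : ∀ u, 0 ≤ ψ u) :
    ∑ e ∈ RE 0 n 0 n, ψ (src e) ≤
      2 * ∑ x ∈ Finset.Icc (0:ℤ) n, ∑ y ∈ Finset.Icc (0:ℤ) n, ψ (x, y) := by
  have h1 : ∑ e ∈ RE 0 n 0 n, ψ (src e) ≤ ∑ e ∈ (Finset.Icc (0:ℤ) n ×ˢ
      (Finset.Icc (0:ℤ) n ×ˢ (Finset.univ : Finset Bool))), ψ (src e) := by
    apply Finset.sum_le_sum_of_subset_of_nonneg
    · intro e he
      exact (Finset.mem_filter.mp he).1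
    · intro e _ _
      exact hψ _
  refine h1.trans ?_
  rw [Finset.sum_product, Finset.mul_sum]
  apply Finset.sum_le_sum
  intro x _
  rw [Finset.sum_product, Finset.mul_sum]
  apply Finset.sum_le_sum
  intro y _
  simp [two_mul]

theorem ex_NN_le {C s : ℝ} (hC : 0 ≤ C) (hU : TwoUp C s) (n : ℕ) (m : ℤ) :
    Ex (fun _ => (1/2:ℝ)) (RE 0 n 0 n) (fun F => NN n m (↑F)) ≤
      4 * ((n + 1) ^ 2 * ph C s m + 4 * (n + 1) * ∑ x ∈ Finset.Icc (0:ℤ) n, ph C s x) := by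
  have h1 : Ex (fun _ => (1/2:ℝ)) (RE 0 n 0 n) (fun F => NN n m (↑F)) ≤
      ∑ e ∈ RE 0 n 0 n, 2 * (ph C s m + (ph C s (src e).1 + ph C s (n - (src e).1) +
        (ph C s (src e).2 + ph C s (n - (src e).2)))) := by
    unfold NN
    rw [Ex_sum]
    apply Finset.sum_le_sum
    intro e _
    rw [Ex_add]
    have h2 := pr_two_le hU (n := n) (inc_dsrc e) (min_le_right m (bdist n (src e)))
    have h3 := pr_two_le hU (n := n) (inc_dtgt e) (min_le_right m (bdist n (src e)))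
    have h4 := ph_min (s := s) hC n m (src e)
    unfold Pr at h2 h3
    linarith
  have h5 := sum_RE_le n (fun u => 2 * (ph C s m + (ph C s u.1 + ph C s (n - u.1) +
        (ph C s u.2 + ph C s (n - u.2))))) (by
      intro u
      have h1 := ph_nonneg (s := s) hC m
      have h2 := ph_nonneg (s := s) hC u.1
      have h3 := ph_nonneg (s := s) hC (n - u.1)
      have h4 := ph_nonneg (s := s) hC u.2
      have h5 := ph_nonneg (s := s) hC (n - u.2)
      positivity)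
  refine h1.trans (h5.trans (le_of_eq ?_))
  simp only
  have hc : (Finset.Icc (0:ℤ) n).card = n + 1 := by
    rw [Int.card_Icc]; omega
  simp_rw [← Finset.mul_sum, Finset.sum_add_distrib, Finset.sum_const, hc, sum_refl n (ph C s)]
  simp_rw [nsmul_eq_mul]
  have hr : ∑ x ∈ Finset.Icc (0:ℤ) n, ((n + 1 : ℕ) : ℝ) * ph C s (n - x) =
      ((n + 1 : ℕ) : ℝ) * ∑ x ∈ Finset.Icc (0:ℤ) n, ph C s x := by
    rw [← Finset.mul_sum, sum_refl n (ph C s)]
  have hr2 : ∑ x ∈ Finset.Icc (0:ℤ) n, ((n + 1 : ℕ) : ℝ) * ph C s x =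
      ((n + 1 : ℕ) : ℝ) * ∑ x ∈ Finset.Icc (0:ℤ) n, ph C s x := by
    rw [← Finset.mul_sum]
  simp only [hr, hr2]
  push_cast
  ring

/-- Power sums. -/
theorem sum_rpow_le {s : ℝ} (hs0 : 0 ≤ s) (hs1 : s < 1) (n : ℕ) :
    ∑ j ∈ Finset.range n, ((j + 1 : ℕ) : ℝ) ^ (-s) ≤ (n:ℝ) ^ (1 - s) / (1 - s) := by
  induction n with
  | zero => simp; positivity
  | succ n ih =>
    rw [Finset.sum_range_succ]
    have hn : (0:ℝ) < ((n + 1 : ℕ) : ℝ) := by positivity
    set N : ℝ := ((n + 1 : ℕ) : ℝ) with hN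
    have hn1 : (n:ℝ) = N * (1 + (-(1 / N))) := by
      have : N ≠ 0 := hn.ne'
      field_simp
      rw [hN]; push_cast; ring
    have hle : 1 / N ≤ 1 := by
      rw [div_le_one hn, hN]; push_cast; linarith [(Nat.cast_nonneg n : (0:ℝ) ≤ n)]
    have h1 : (1 + (-(1 / N))) ^ (1 - s) ≤ 1 + (1 - s) * (-(1 / N)) :=
      rpow_one_add_le_one_add_mul_self (by linarith) (by linarith) (by linarith)
    have h2 : (n:ℝ) ^ (1 - s) ≤ N ^ (1 - s) * (1 + (1 - s) * (-(1 / N))) := by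
      rw [hn1, Real.mul_rpow hn.le (by linarith)]
      exact mul_le_mul_of_nonneg_left h1 (by positivity)
    have h3 : N ^ (-s) = N ^ (1 - s) * (1 / N) := by
      rw [show -s = (1 - s) - 1 by ring, Real.rpow_sub_one hn.ne']
      ring
    have h4 : (0:ℝ) < 1 - s := by linarith
    have h5 : (n:ℝ) ^ (1 - s) / (1 - s) ≤ (N ^ (1 - s) * (1 + (1 - s) * (-(1 / N)))) / (1 - s) := by
      gcongr
    have h6 : (N ^ (1 - s) * (1 + (1 - s) * (-(1 / N)))) / (1 - s) + N ^ (1 - s) * (1 / N) =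
        N ^ (1 - s) / (1 - s) := by
      field_simp
      ring
    rw [h3]
    linarith

theorem sum_ph_le {C s : ℝ} (hC : 0 ≤ C) (hs0 : 0 ≤ s) (hs1 : s < 1) (n : ℕ) :
    ∑ x ∈ Finset.Icc (0:ℤ) n, ph C s x ≤ 1 + C * ((n:ℝ) ^ (1 - s) / (1 - s)) := by
  have key : ∀ n : ℕ, ∑ x ∈ Finset.Icc (0:ℤ) n, ph C s x =
      1 + C * ∑ j ∈ Finset.range n, ((j + 1 : ℕ) : ℝ) ^ (-s) := by
    intro n
    induction n with
    | zero => simp [ph]
    | succ n ih =>
      have h1 : Finset.Icc (0:ℤ) ((n + 1 : ℕ) : ℤ) = insert ((n:ℤ) + 1) (Finset.Icc (0:ℤ) n) := by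
        ext x
        simp only [Finset.mem_Icc, Finset.mem_insert]
        push_cast
        omega
      rw [h1, Finset.sum_insert (by simp), ih, Finset.sum_range_succ]
      unfold ph
      rw [if_neg (by omega)]
      push_cast
      ring
  rw [key n]
  have := sum_rpow_le hs0 hs1 n
  have := mul_le_mul_of_nonneg_left this hC
  linarith

end H342P
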