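import Pool.Agent.H342R2.Per.Sum
import Pool.Agent.H974R2.Sym

/-!
Symmetries: it is enough to bound the two-arm probability of the origin and the face `(0, 0)`.
-/

namespace H342P

open H974 Finset

theorem dreach_image (φ : Edg ≃ Edg) (χ : Vtx → Vtx)
    (hc : ∀ e, (dsrc (φ e) = χ (dsrc e) ∧ dtgt (φ e) = χ (dtgt e)) ∨
      (dsrc (φ e) = χ (dtgt e) ∧ dtgt (φ e) = χ (dsrc e))) {F : Set Edg} {f g : Vtx}
    (h : DReach Fᶜ f g) : DReach (φ '' F)ᶜ (χ f) (χ g) := by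
  induction h with
  | refl => exact DReach.refl _ _
  | tail _ hs ih =>
    refine ih.trans (DAdj.reach ?_)
    obtain ⟨e, he, hcase⟩ := hs
    refine ⟨φ e, ?_, ?_⟩
    · rw [Set.mem_compl_iff, Set.mem_image]
      rintro ⟨e', he', h2⟩
      rw [φ.injective h2] at he'
      exact he he'
    · rcases hc e with ⟨h1, h2⟩ | ⟨h1, h2⟩ <;> rcases hcase with ⟨h3, h4⟩ | ⟨h3, h4⟩ <;>
        rw [h1, h2, h3, h4] <;> simp

theorem two_trl {u f : Vtx} {m : ℤ} {F : Set Edg} (s t : ℤ) (h : Two u f m F) :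
    Two (u.1 + s, u.2 + t) (f.1 + s, f.2 + t) m ((trl s t).φ '' F) := by
  obtain ⟨⟨w, hw, h1⟩, g, hg, h2⟩ := h
  refine ⟨⟨(w.1 + s, w.2 + t), ?_, (trl s t).reach h1⟩, (g.1 + s, g.2 + t), ?_, ?_⟩
  · unfold Far at hw ⊢; simp only; omega
  · unfold FarF inF at hg ⊢; simp only; omega
  · refine dreach_image (trl s t).φ (fun u => (u.1 + s, u.2 + t)) ?_ h2
    rintro ⟨x, y, _ | _⟩
    · left; simp; ring
    · left; simp; ring

theorem two_rfx {u f : Vtx} {m : ℤ} {F : Set Edg} (h : Two u f m F) :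
    Two (-u.1, u.2) (-f.1 - 1, f.2) m ((rfx 0).φ '' F) := by
  obtain ⟨⟨w, hw, h1⟩, g, hg, h2⟩ := h
  have h3 := (rfx 0).reach h1
  obtain ⟨w1, w2⟩ := w
  obtain ⟨u1, u2⟩ := u
  rw [rfx_ψ, rfx_ψ, zero_sub, zero_sub] at h3
  refine ⟨⟨(-w1, w2), ?_, h3⟩, (-g.1 - 1, g.2), ?_, ?_⟩
  · unfold Far at hw ⊢; simp only at hw ⊢; omega
  · unfold FarF inF at hg ⊢; simp only at hg ⊢; omega
  · refine dreach_image (rfx 0).φ (fun u => (-u.1 - 1, u.2)) ?_ h2
    rintro ⟨x, y, _ | _⟩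
    · right; simp
    · left; simp

theorem two_rfy {u f : Vtx} {m : ℤ} {F : Set Edg} (h : Two u f m F) :
    Two (u.1, -u.2) (f.1, -f.2 - 1) m ((rfy 0).φ '' F) := by
  obtain ⟨⟨w, hw, h1⟩, g, hg, h2⟩ := h
  have h3 := (rfy 0).reach h1
  obtain ⟨w1, w2⟩ := w
  obtain ⟨u1, u2⟩ := u
  rw [rfy_ψ, rfy_ψ, zero_sub, zero_sub] at h3
  refine ⟨⟨(w1, -w2), ?_, h3⟩, (g.1, -g.2 - 1), ?_, ?_⟩
  · unfold Far at hw ⊢; simp only at hw ⊢; omega
  · unfold FarF inF at hg ⊢; simp only at hg ⊢; omega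
  · refine dreach_image (rfy 0).φ (fun u => (u.1, -u.2 - 1)) ?_ h2
    rintro ⟨x, y, _ | _⟩
    · left; simp
    · right; simp

/-- The two-arm probability around `u`. -/
noncomputable def tp (u f : Vtx) (m : ℤ) : ℝ :=
  Pr (fun _ => (1/2:ℝ)) (RE (u.1 - m) (u.1 + m) (u.2 - m) (u.2 + m)) (fun F => Two u f m (↑F))

theorem tp_le (g : LSym) {u f u' f' : Vtx} {m : ℤ}
    (hR : g.mp (RE (u.1 - m) (u.1 + m) (u.2 - m) (u.2 + m)) =
      RE (u'.1 - m) (u'.1 + m) (u'.2 - m) (u'.2 + m))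
    (hT : ∀ F : Set Edg, Two u f m F → Two u' f' m (g.φ '' F)) : tp u f m ≤ tp u' f' m := by
  unfold tp
  rw [← hR, LSym.pr]
  apply Pr_mono (fun _ => ⟨by norm_num, by norm_num⟩)
  intro F _ h
  rw [LSym.coe_mp]
  exact hT _ h

theorem tp_trl (u f : Vtx) (m : ℤ) : tp u f m ≤ tp (0, 0) (f.1 - u.1, f.2 - u.2) m := by
  apply tp_le (trl (-u.1) (-u.2))
  · rw [trl_RE]; congr 1 <;> simp only <;> ring
  · intro F h
    have := two_trl (-u.1) (-u.2) h
    simpa [sub_eq_add_neg] using this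

theorem tp_rfx (f : Vtx) (m : ℤ) : tp (0, 0) f m ≤ tp (0, 0) (-f.1 - 1, f.2) m := by
  apply tp_le (rfx 0)
  · rw [rfx_RE]; congr 1 <;> simp only <;> ring
  · intro F h
    have := two_rfx h
    simpa using this

theorem tp_rfy (f : Vtx) (m : ℤ) : tp (0, 0) f m ≤ tp (0, 0) (f.1, -f.2 - 1) m := by
  apply tp_le (rfy 0)
  · rw [rfy_RE]; congr 1 <;> simp only <;> ring
  · intro F h
    have := two_rfy h
    simpa using this

theorem tp_canon {u f : Vtx} (hf : Inc u f) (m : ℤ) : tp u f m ≤ tp (0, 0) (0, 0) m := by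
  refine (tp_trl u f m).trans ?_
  obtain ⟨h1, h2⟩ := hf
  have key : ∀ x : ℤ, tp (0, 0) (x, 0) m ≤ tp (0, 0) (0, 0) m ∨ ¬ (x = 0 ∨ x = -1) := by
    intro x
    by_cases hx : x = 0
    · left; rw [hx]
    · by_cases hx1 : x = -1
      · left
        have := tp_rfx (x, 0) m
        rw [hx1] at this ⊢
        simpa using this
      · right; omega
  have key2 : tp (0, 0) (f.1 - u.1, f.2 - u.2) m ≤ tp (0, 0) (f.1 - u.1, 0) m := by
    rcases h2 with h2 | h2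
    · rw [h2, sub_self]
    · have := tp_rfy (f.1 - u.1, f.2 - u.2) m
      have e1 : -(f.2 - u.2) - 1 = 0 := by omega
      simp only [e1] at this
      exact this
  refine key2.trans ?_
  rcases key (f.1 - u.1) with h | h
  · exact h
  · exact absurd (by omega) h

theorem twoUp_of_canon {C s : ℝ}
    (h : ∀ m : ℤ, 0 < m → Pr (fun _ => (1/2:ℝ)) (RE (-m) m (-m) m)
      (fun F => Two (0, 0) (0, 0) m (↑F)) ≤ C * (m:ℝ) ^ (-s)) : TwoUp C s := by
  intro m u f hm hf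
  refine (tp_canon hf m).trans ?_
  have := h m hm
  unfold tp
  simpa using this

end H342P
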